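import Pool.Agent.Helper77.LM.Simp
import Pool.Agent.Helper37.EQ.Spec

/-!
# The `L^p` Mahler inequality for all large `p` in every dimension: statements of the parts (swarm LP)

Everything about the centered simplex `Dl n` (vertices `un (Pi.single i 1)`, barycentric coordinates
`bary`, permutations `Tl`, `Tt`, `dp` = scalar product, `hh` = support function of `Dl n`, `II`, `IS`,
`uu`, `JJ`, `MpF`, `Near`, `A`, `V`, `Cls`, `Gg`, `Ts`, `qf`) is in `Pool/Agent/Helper77/LM/*.lean`.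
-/

set_option autoImplicit false

noncomputable section

open MeasureTheory Set Filter Topology
open scoped ENNReal

namespace Helper63.LP

open Pool.Agent.Helper77.LM

variable {n m : ℕ}

/-! ### definitions -/

/-- the point of `ℝⁿ` with the barycentric coordinates `(1 - ∑ w, w_1, ..., w_n)`:
`bary (X w) = Fin.cons (1 - ∑ w) w`; an affine bijection with determinant `n + 1` -/
def X (w : Fin n → ℝ) : Fin n → ℝ := fun j => w j - (1 - ∑ k, w k)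

/-- `vy (Y e) = Fin.cons (∑ e / (n+1)) (fun j => ∑ e / (n+1) - e j)`; linear with `|det| = 1 / (n+1)` -/
def Y (e : Fin n → ℝ) : Fin n → ℝ := fun j => (∑ k, e k) / ((n : ℝ) + 1) - e j

/-- the simplex `w ≥ 0`, `∑ w ≤ 1` -/
def Sg (n : ℕ) : Set (Fin n → ℝ) := {w | (∀ j, 0 ≤ w j) ∧ ∑ j, w j ≤ 1}

/-- `K` in the coordinates `w` at the vertex `i` (`w j = bary x (swap 0 i j.succ)`) -/
def Kv (K : Set (Fin n → ℝ)) (i : Fin (n + 1)) : Set (Fin n → ℝ) :=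
  {w | Tl (Equiv.swap 0 i) (X w) ∈ K}

/-- exponential integral -/
def Ex (p : ℝ) (S : Set (Fin n → ℝ)) (e : Fin n → ℝ) : ℝ :=
  ∫ w in S, Real.exp (-(p * ∑ j, e j * w j))

/-- the ratio at the vertex `i` -/
def rt (p : ℝ) (K : Set (Fin n → ℝ)) (i : Fin (n + 1)) (e : Fin n → ℝ) : ℝ :=
  Ex p (Kv K i) e / Ex p (Sg n) e

/-- a box of exponents -/
def Xi (n : ℕ) (a b : ℝ) : Set (Fin n → ℝ) := {e | ∀ j, a ≤ e j ∧ e j ≤ b}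

/-- the gain -/
def gg (p : ℝ) (K : Set (Fin n → ℝ)) (a b : ℝ) : ℝ≥0∞ :=
  ∑ i : Fin (n + 1), ENNReal.ofReal (1 / ((n : ℝ) + 1) ^ (n + 1)) *
    ∫⁻ e in Xi n a b, ENNReal.ofReal (Real.exp (-((∑ j, e j) / ((n : ℝ) + 1))) *
      (rt p K i e ^ (-(1 / p)) - 1))

/-- gauge of `K` on the facet `i`, minus one -/
def bb (K : Set (Fin (m + 1) → ℝ)) (i : Fin (m + 2)) (l : Fin (m + 1) → ℝ) : ℝ :=
  gauge ((Tl (Equiv.swap 0 i) : (Fin (m + 1) → ℝ) → (Fin (m + 1) → ℝ)) ⁻¹' K) l - 1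

/-- maximum over the vertices of the gauge of `K`, minus one -/
def bt (K : Set (Fin n → ℝ)) : ℝ :=
  Finset.univ.sup' ⟨0, Finset.mem_univ _⟩ (fun i : Fin (n + 1) => gauge K (un (Pi.single i 1))) - 1

/-- first order of the volume defect -/
def cost (m : ℕ) (K : Set (Fin (m + 1) → ℝ)) : ℝ :=
  ((m : ℝ) + 1) / ((m : ℝ) + 2) * ∑ i : Fin (m + 2), A m (bb K i) / V m

/-- the radial coordinate on the simplex of barycentric coordinates -/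
def sg (m : ℕ) (l : Fin (m + 1) → ℝ) : ℝ :=
  1 - ((m : ℝ) + 1) * Finset.univ.inf' ⟨0, Finset.mem_univ _⟩ l

/-- density of the first variation (restricted to a box), in barycentric coordinates -/
def qq (p a b : ℝ) (l : Fin (n + 1) → ℝ) : ℝ :=
  ∑ i : Fin (n + 1), 1 / ((n : ℝ) + 1) ^ (n + 1) *
    ∫ e in Xi n a b, Real.exp (-((∑ j, e j) / ((n : ℝ) + 1))) *
      Real.exp (-(p * ∑ j : Fin n, e j * l (Equiv.swap 0 i j.succ))) / Ex p (Sg n) e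

/-! ### block J: the integral `JJ` -/

/-- VOLV: volume and the integral of `exp (-hh)` (`V_zero`, `V_step`; `lint_cones`-type decomposition:
on the cone `vy y 0 = hh y` substitute `y = Y e`, `e ≥ 0`: `(n+1) * (1/(n+1)) * (n+1)^n`; or by
`Measure.lintegral`/gauge layer cake with the volume of the dual simplex) -/
def S_VOLV : Prop :=
  ∀ n : ℕ, V n = ((n : ℝ) + 1) / (n.factorial : ℝ) ∧
    ∫ y : Fin n → ℝ, Real.exp (-hh y) = ((n : ℝ) + 1) ^ n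

/-- MONO: power means: `II p y ≤ V exp (p hh)` (`II_le`) and Jensen -/
def S_MONO : Prop :=
  ∀ (n : ℕ) (p : ℝ) (y : Fin n → ℝ), 1 ≤ p →
    Real.exp (-hh y) ≤ (II p y / V n) ^ (-(1 / p)) ∧
    (II p y / V n) ^ (-(1 / p)) ≤ (II 1 y / V n) ^ (-(1 : ℝ)) ∧
    JJ p n ≤ V n ^ (-(1 / p)) * (V n * JJ 1 n)

/-- LIMJ (hypotheses MONO, VOLV): dominated convergence, `II p y ≥ t^n V exp (p (1-(n+1)t) hh)`
(`le_II`) -/
def S_LIMJ : Prop :=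
  ∀ (n : ℕ) (θ : ℝ), 0 < θ → ∃ p0 : ℝ, 1 ≤ p0 ∧ ∀ p, p0 ≤ p →
    V n ^ (1 / p) * JJ p n ≤ (1 + θ) * ((n : ℝ) + 1) ^ n

/-- KAP (hypothesis MONO): `Q1_low` of `Second.lean`, uniform in `p ≥ 1`: there `κ_p = w1 c/(2(n+1))`
with `w1 = (V e^p)^(-1/p) = V^(-1/p)/e`, and `JJ p ≤ V^(-1/p) (V JJ 1)` -/
def S_KAP : Prop :=
  ∀ n : ℕ, ∃ κ : ℝ, 0 < κ ∧ ∀ p : ℝ, 1 ≤ p → ∀ z : Fin n → ℝ,
    ENNReal.ofReal (JJ p n * (1 + κ * qf z)) ≤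
      ∫⁻ y : Fin n → ℝ, ENNReal.ofReal (Real.exp (dp z y) * uu p y)

/-- TRA (hypothesis KAP): `IS^(-1/p) = uu + uu ((IS/II)^(-1/p) - 1)`, `exp ≥ 1 - |dp z y|` on
`hh ≤ R`, `|dp z y| ≤ n R ∑ |z_i|` (`abs_dp_le`), `quad_low`; `MpF_translate` -/
def S_TRA : Prop :=
  ∀ (n : ℕ) (R : ℝ), 0 < R → ∃ C : ℝ, 0 < C ∧ ∀ (p g : ℝ) (K : Set (Fin n → ℝ)), 1 ≤ p → 0 ≤ g →
    IsClosed K → K ⊆ Dl n → 0 < (volume K).toReal →
    ENNReal.ofReal (g * JJ p n) ≤ ∫⁻ y in {y : Fin n → ℝ | hh y ≤ R},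
      ENNReal.ofReal (uu p y * ((IS p K y / II p y) ^ (-(1 / p)) - 1)) →
    ∀ z : Fin n → ℝ, ENNReal.ofReal ((volume K).toReal ^ (1 + 1 / p) *
      (JJ p n * (1 + g - C * g ^ 2))) ≤ MpF p ((fun x => x - z) '' K)

/-! ### block C: coordinates at the vertices -/

/-- RTF: ratio and support function in the coordinates at the vertex `i` -/
def S_RTF : Prop :=
  ∀ (n : ℕ) (p : ℝ) (K : Set (Fin n → ℝ)) (i : Fin (n + 1)) (e : Fin n → ℝ), 0 < p →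
    MeasurableSet K → (∀ j, 0 ≤ e j) →
    hh (Tt (Equiv.swap 0 i) (Y e)) = (∑ j, e j) / ((n : ℝ) + 1) ∧
    IS p K (Tt (Equiv.swap 0 i) (Y e)) =
      ((n : ℝ) + 1) * Real.exp (p * ((∑ j, e j) / ((n : ℝ) + 1))) * Ex p (Kv K i) e ∧
    II p (Tt (Equiv.swap 0 i) (Y e)) =
      ((n : ℝ) + 1) * Real.exp (p * ((∑ j, e j) / ((n : ℝ) + 1))) * Ex p (Sg n) e

/-- CVR: the images of the boxes under the maps `e ↦ Tt (swap 0 i) (Y e)` are disjoint, in `hh ≤ b` -/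
def S_CVR : Prop :=
  ∀ (n : ℕ) (a b : ℝ) (F : (Fin n → ℝ) → ℝ≥0∞), 0 < a → a < b → Measurable F →
    ∑ i : Fin (n + 1), ENNReal.ofReal (1 / ((n : ℝ) + 1)) *
      ∫⁻ e in Xi n a b, F (Tt (Equiv.swap 0 i) (Y e)) ≤ ∫⁻ y in {y : Fin n → ℝ | hh y ≤ b}, F y

/-- COV (hypotheses RTF, CVR): `uu (..) ≥ V^(-1/p) exp (-∑e/(n+1))` -/
def S_COV : Prop :=
  ∀ (n : ℕ) (p a b : ℝ) (K : Set (Fin n → ℝ)), 1 ≤ p → 0 < a → a < b → IsClosed K → K ⊆ Dl n →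
    ENNReal.ofReal (V n ^ (-(1 / p)) * ((n : ℝ) + 1) ^ n) * gg p K a b ≤
      ∫⁻ y in {y : Fin n → ℝ | hh y ≤ b},
        ENNReal.ofReal (uu p y * ((IS p K y / II p y) ^ (-(1 / p)) - 1))

/-! ### block E: exponential integrals -/

/-- the orthant -/
def Ort (n : ℕ) : Set (Fin n → ℝ) := {w | ∀ j, 0 ≤ w j}

/-- ORT: exponential integrals over parts of the orthant (product measure; for the first bound
`{∑ w > δ} ⊆ ⋃ {w j > δ/n}`; for the third `exp (-p ∑ e w) ≤ exp (-p a δ/2) exp (-p ∑ e w / 2)`;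
for the last the translation by `γ`) -/
def S_ORT : Prop :=
  ∀ (n : ℕ) (p : ℝ) (e : Fin n → ℝ), 0 < n → 0 < p → (∀ j, 0 < e j) →
    IntegrableOn (fun w : Fin n → ℝ => Real.exp (-(p * ∑ j, e j * w j))) (Ort n) ∧
    Ex p (Ort n) e = ∏ j, (1 / (p * e j)) ∧
    (∀ δ : ℝ, 0 ≤ δ → (1 - ∑ j, Real.exp (-(p * e j * δ / n))) * ∏ j, (1 / (p * e j)) ≤
      Ex p {w | w ∈ Ort n ∧ ∑ j, w j ≤ δ} e) ∧
    (∀ δ : ℝ, 0 ≤ δ → (∏ j, (1 - Real.exp (-(p * e j * δ / n)))) * ∏ j, (1 / (p * e j)) ≤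
      Ex p {w | w ∈ Ort n ∧ ∑ j, w j < δ} e) ∧
    (∀ a δ : ℝ, 0 < a → (∀ j, a ≤ e j) → 0 ≤ δ → Ex p {w | w ∈ Ort n ∧ δ ≤ ∑ j, w j} e ≤
      Real.exp (-(p * a * δ / 2)) * ∏ j, (2 / (p * e j))) ∧
    (∀ (γ : Fin n → ℝ) (r : ℝ), (∀ j, 0 ≤ γ j) →
      Ex p {w | (∀ j, γ j ≤ w j) ∧ ∑ j, w j ≤ r} e ≤
        Real.exp (-(p * ∑ j, γ j * e j)) * Ex p {w | w ∈ Ort n ∧ ∑ j, w j ≤ r} e)

/-! ### block G: geometry of near bodies -/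

/-- LB: gauge facts (`gauge_facts`) -/
def S_LB : Prop :=
  ∀ (m : ℕ) (η : ℝ) (K : Set (Fin (m + 1) → ℝ)), 0 < η → η < 1 → Near m η K →
    (∀ i, Gg m (bb K i)) ∧ (∀ i, ∀ l ∈ stdSimplex ℝ (Fin (m + 1)), bb K i l ≤ bt K) ∧
    (∀ x ∈ Dl (m + 1), (1 / (1 + bt K)) • x ∈ K) ∧ 0 ≤ bt K ∧ bt K ≤ η / (1 - η) ∧
    0 ≤ cost m K ∧ cost m K ≤ ((m : ℝ) + 1) * bt K

/-- COST: `outside_formula` with `g = 1`, `ray_up`, `V_step` -/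
def S_COST : Prop :=
  ∀ (m : ℕ) (η : ℝ) (K : Set (Fin (m + 1) → ℝ)), 0 < η → η < 1 → Near m η K →
    volume (Dl (m + 1) \ K) ≤ ENNReal.ofReal (cost m K * V (m + 1))

/-! ### block A: `p * bt K` small -/

/-- COR: correlation with the radial weight (`m = k + 1`).  Proof: replace `b` by its symmetrisation
(`sy_cls`, `A_mul_sy`, `Assoc4.lean`), `A_step`, on the rays `sg = s` (`sg (bary (s • l)) = s`),
`corr` on the facets, then Chebyshev (`cheb`) for the weight `s^(k+1)`: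
`F s = A k (Ts s f)` and `A k (Ts s b) / s` are nondecreasing -/
def S_COR : Prop :=
  ∀ (k : ℕ) (f b : (Fin (k + 2) → ℝ) → ℝ), Cls (k + 1) f →
    (∀ l ∈ stdSimplex ℝ (Fin (k + 2)), 0 ≤ f l) → Gg (k + 1) b →
    ((k : ℝ) + 2) / ((k : ℝ) + 1) * A (k + 1) (fun l => f l * sg (k + 1) l) * A (k + 1) b ≤
      V (k + 1) * A (k + 1) (fun l => f l * b l)

/-- QCLS: the density is symmetric, convex, bounded on the simplex, nonnegative -/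
def S_QCLS : Prop :=
  ∀ (n : ℕ) (p a b : ℝ), 0 < p → 0 < a → a < b →
    Cls n (qq p a b) ∧ ∀ l : Fin (n + 1) → ℝ, 0 ≤ qq p a b l

/-- QFAC: facet average of the density for large `p` (`m = k + 1`, `n = m + 1 = k + 2`).  For a vertex
`i ≠ 0` (in the facet `0`): `Ex p (Sg n) e ≤ 1 / (p^n ∏ e)`, and the integral over the facet of
`exp (-p ∑_{j} e_j μ_j) * sg` is at least `(1 - τ) (n - 1)! V m / (p^(n-1) ∏_{j ≠ 0} e_j)`;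
`∫_{e ≥ 0} e_0 exp (-∑ e / (n+1)) = (n+1)^(n+1)`; sum over `i ≠ 0`: `n (n-1)! p = n! p` -/
def S_QFAC : Prop :=
  ∀ (k : ℕ) (τ : ℝ), 0 < τ → τ < 1 → ∃ a b p1 : ℝ, 0 < a ∧ a < b ∧ 1 ≤ p1 ∧ ∀ p, p1 ≤ p →
    (1 - τ) * ((k + 2).factorial : ℝ) * p * V (k + 1) ≤
      A (k + 1) (fun l => Ts 1 (qq p a b) l * sg (k + 1) l)

/-- QLOW (hypothesis LB): `r^(-1/p) - 1 ≥ (1 - r)/p` (`one_add_le_rpow`), `1 - rt` = integral over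
`Dl \ K`, Tonelli, `outside_formula`, and on the rays `qq (bary (s • l)) ≥ exp (-(p b bt)) qq (bary l)`,
`∫_{1/γ}^1 s^m ≥ γ^(-(m+1)) (γ - 1)`, `γ = 1 + bb ≤ 1 + bt` -/
def S_QLOW : Prop :=
  ∀ (m : ℕ) (p a b η : ℝ) (K : Set (Fin (m + 1) → ℝ)), 1 ≤ p → 0 < a → a < b → 0 < η → η < 1 →
    Near m η K →
    ENNReal.ofReal (1 / (p * ((m : ℝ) + 2)) * (Real.exp (-(p * b * bt K)) *
      (1 + bt K) ^ (-((m : ℝ) + 1)) * (1 / ((m : ℝ) + 1) *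
        ∑ i : Fin (m + 2), A m (fun l => Ts 1 (qq p a b) l * bb K i l)))) ≤ gg p K a b

/-- CA (hypotheses LB, COR, QCLS, QFAC, QLOW, VOLV): `gg ≥ (n/(n-1)) (1-τ)^3 cost`, `n = k + 2` -/
def S_CA : Prop :=
  ∀ k : ℕ, ∃ a b t0 p1 η1 c : ℝ, 0 < a ∧ a < b ∧ 0 < t0 ∧ 1 ≤ p1 ∧ 0 < η1 ∧ η1 < 1 ∧ 0 < c ∧
    ∀ (p : ℝ) (K : Set (Fin (k + 2) → ℝ)), p1 ≤ p → Near (k + 1) η1 K → p * bt K ≤ t0 →
      ENNReal.ofReal ((1 + c) * cost (k + 1) K) ≤ gg p K a b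

/-! ### block B: `p * bt K` bounded below -/

/-- B1E: one vertex, analysis.  With `δ` the depth of the cut: `rt ≤ 2^(n+1) exp (-p a δ/2)` if `p δ` is
large, and `1 - rt ≥ ∏ (1 - exp (-p e_j δ/n)) ≥ (1 - exp (-a t0/n))^n` in general -/
def S_B1E : Prop :=
  ∀ (n : ℕ) (a b t0 : ℝ), 0 < n → 0 < a → a < b → 0 < t0 → ∃ c p1 : ℝ, 0 < c ∧ 1 ≤ p1 ∧
    ∀ (p δ : ℝ) (S : Set (Fin n → ℝ)) (e : Fin n → ℝ), p1 ≤ p → 0 < δ → δ ≤ 1 → t0 ≤ p * δ →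
      e ∈ Xi n a b → MeasurableSet S → 0 < volume S → S ⊆ Sg n → (∀ w ∈ S, δ ≤ ∑ j, w j) →
      c * δ ≤ (Ex p S e / Ex p (Sg n) e) ^ (-(1 / p)) - 1

/-- B1 (hypotheses LB, B1E): let `v` be the vertex with gauge `1 + bt`, `u` a support functional there:
`u ≤ 1` on `K`, `u v = 1 + bt`, `u (v_j) ≥ -(m+1)` (facet centroids in `K`), hence
`1 - bary x v ≥ bt / (m + 3)` on `K` -/
def S_B1 : Prop :=
  ∀ (m : ℕ) (a b t0 : ℝ), 0 < a → a < b → 0 < t0 → ∃ c p1 η1 : ℝ, 0 < c ∧ 1 ≤ p1 ∧ 0 < η1 ∧ η1 < 1 ∧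
    ∀ (p : ℝ) (K : Set (Fin (m + 1) → ℝ)), p1 ≤ p → Near m η1 K → t0 ≤ p * bt K →
      ENNReal.ofReal (c * bt K) ≤ gg p K a b

/-- BOX: moments of a large box -/
def S_BOX : Prop :=
  ∀ (n : ℕ) (τ : ℝ), 0 < τ → τ < 1 → ∃ a b : ℝ, 0 < a ∧ a < b ∧
    ∀ j : Fin n, (1 - τ) * ((n : ℝ) + 1) ^ (n + 1) ≤
      ∫ e in Xi n a b, Real.exp (-((∑ k, e k) / ((n : ℝ) + 1))) * e j

/-- B2E: one vertex, analysis: `1 - rt ≥ (1 - ρ) (1 - exp (-p ∑ γ e))`, `ρ = n exp (-p a r / n)`, hence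
`-log rt ≥ (1 - ρ exp (p ∑ γ e)) p ∑ γ e`, and `p ∑ γ e ≤ p b ∑ γ` is smaller than `p a r/(2n)` -/
def S_B2E : Prop :=
  ∀ (n : ℕ) (a b τ r : ℝ), 0 < n → 0 < a → a < b → 0 < τ → τ < 1 → 0 < r → r ≤ 1 →
    ∃ p2 ε : ℝ, 1 ≤ p2 ∧ 0 < ε ∧ ∀ (p : ℝ) (S : Set (Fin n → ℝ)) (e γ : Fin n → ℝ), p2 ≤ p →
      e ∈ Xi n a b → MeasurableSet S → 0 < volume S → S ⊆ Sg n → (∀ j, 0 ≤ γ j) → (∀ j, γ j ≤ ε) →
      (∀ w ∈ S, ∑ j, w j ≤ r → ∀ j, γ j ≤ w j) →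
      (1 - τ) * ∑ j, γ j * e j ≤ (Ex p S e / Ex p (Sg n) e) ^ (-(1 / p)) - 1

/-- B2G (hypothesis LB): one vertex `i = swap 0 j k.succ` of the facet `j`, geometry: `γ` = minimum of
`bary x j` on `K ∩ {1 - bary x i ≤ r}`; if `x` is a minimiser, `x_t = (1-t) x + t c_j` (`c_j` = centroid
of the facet, in `K`) with `t = (m+1) γ` lies on the ray to a point `l` of the facet `j` -/
def S_B2G : Prop :=
  ∀ (m : ℕ) (r : ℝ), 0 < r → r ≤ 1 → ∃ η2 C : ℝ, 0 < η2 ∧ η2 < 1 ∧ 0 < C ∧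
    ∀ (η : ℝ) (K : Set (Fin (m + 1) → ℝ)), 0 < η → η ≤ η2 → Near m η K →
      ∀ (j : Fin (m + 2)) (k : Fin (m + 1)), ∃ (l : Fin (m + 1) → ℝ) (γ : ℝ),
        l ∈ stdSimplex ℝ (Fin (m + 1)) ∧ 1 - r ≤ l k ∧ 0 ≤ γ ∧ γ ≤ C * η ∧
        (∀ x ∈ K, 1 - bary x (Equiv.swap 0 j k.succ) ≤ r / 3 → γ ≤ bary x j) ∧
        bb K j l ≤ (1 + C * η) * (((m : ℝ) + 2) * γ)

/-- B2 (hypotheses BOX, B2E, B2G) -/
def S_B2 : Prop :=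
  ∀ (m : ℕ) (τ : ℝ), 0 < τ → τ < 1 → ∃ a b : ℝ, 0 < a ∧ a < b ∧ ∀ r : ℝ, 0 < r → r ≤ 1 →
    ∃ p2 η2 : ℝ, 1 ≤ p2 ∧ 0 < η2 ∧ η2 < 1 ∧
    ∀ (p : ℝ) (K : Set (Fin (m + 1) → ℝ)), p2 ≤ p → Near m η2 K →
      ∃ L : Fin (m + 2) → Fin (m + 1) → Fin (m + 1) → ℝ,
        (∀ j k, L j k ∈ stdSimplex ℝ (Fin (m + 1)) ∧ 1 - r ≤ L j k k) ∧
        ENNReal.ofReal ((1 - τ) / ((m : ℝ) + 2) * ∑ j, ∑ k, bb K j (L j k)) ≤ gg p K a b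

/-- B3: mean of a convex function which vanishes at the center, from values near the vertices.  If all
`l_i ≥ √r` then `l = (1-√r) Φ + √r z` with `Φ = ∑ l_k L_k`, `z` in the simplex; write
`Φ = ∑ (l_k - min l) L_k + (m+1) (min l) (mean of the L_k)`, `b (mean) ≤ (m+1) r β`; mean of
`l_k - min l` is `m/(m+1)^2`; the set `min l < √r` has volume at most `m (m+1) √r V m` -/
def S_B3 : Prop :=
  ∀ m : ℕ, ∃ C r0 : ℝ, 0 < C ∧ 0 < r0 ∧ r0 ≤ 1 ∧ ∀ (b : (Fin (m + 1) → ℝ) → ℝ) (β r : ℝ)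
    (L : Fin (m + 1) → Fin (m + 1) → ℝ), Gg m b → (∀ l ∈ stdSimplex ℝ (Fin (m + 1)), b l ≤ β) →
    0 < r → r ≤ r0 → (∀ k, L k ∈ stdSimplex ℝ (Fin (m + 1)) ∧ 1 - r ≤ L k k) →
    A m b ≤ V m * ((m : ℝ) / ((m : ℝ) + 1) ^ 2 * ∑ k, b (L k) + C * Real.sqrt r * β)

/-- CB (hypotheses LB, B1, B2, B3): `cost ≤ (1 - 1/n) gg/(1-τ) + C √r bt`, `bt ≤ gg/c` -/
def S_CB : Prop :=
  ∀ (m : ℕ) (t0 : ℝ), 0 < t0 → ∃ a b p1 η1 c : ℝ, 0 < a ∧ a < b ∧ 1 ≤ p1 ∧ 0 < η1 ∧ η1 < 1 ∧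
    0 < c ∧ ∀ (p : ℝ) (K : Set (Fin (m + 1) → ℝ)), p1 ≤ p → Near m η1 K → t0 ≤ p * bt K →
      ENNReal.ofReal ((1 + c) * cost m K) ≤ gg p K a b

/-! ### assembly of the local part -/

/-- NLP (hypotheses CA, CB, TRA, COV, COST, LB, LIMJ; `m = 0`: `K = Dl 1`, KAP) -/
def S_NLP : Prop :=
  ∀ m : ℕ, ∃ p0 η0 c : ℝ, 1 ≤ p0 ∧ 0 < η0 ∧ η0 < 1 ∧ 0 < c ∧
    ∀ (p : ℝ) (K : Set (Fin (m + 1) → ℝ)), p0 ≤ p → Near m η0 K → ∀ z : Fin (m + 1) → ℝ,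
      ENNReal.ofReal (V (m + 1) ^ (1 + 1 / p) * (JJ p (m + 1) *
        (1 + c * (volume (Dl (m + 1) \ K)).toReal))) ≤ MpF p ((fun x => x - z) '' K)

/-- GEN (hypothesis NLP): `main` of `Final.lean` and `main2` of `Simp.lean`, uniform in `p ≥ p0` -/
def S_GEN : Prop :=
  ∀ m : ℕ, ∃ p0 δ : ℝ, 1 ≤ p0 ∧ 0 < δ ∧ ∀ (p : ℝ) (K T₀ : Set (Fin (m + 1) → ℝ)), p0 ≤ p →
    Convex ℝ K → IsCompact K → (interior K).Nonempty → SimD T₀ → K ⊆ T₀ →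
    volume T₀ ≤ ENNReal.ofReal (1 + δ) * volume K →
    MpF p (Dl (m + 1)) ≤ MpF p K ∧ (MpF p K = MpF p (Dl (m + 1)) → SimD K) ∧
    ∃ T : Set (Fin (m + 1) → ℝ), SimD T ∧ K ⊆ T ∧ volume T ≤ volume T₀ ∧
      ENNReal.ofReal (1 + δ * ((volume T).toReal / (volume K).toReal - 1)) *
        MpF p (Dl (m + 1)) ≤ MpF p K

/-! ### the part far from the simplices -/

/-- `-K ⊆ b K + a` -/
def Asy (K : Set (Fin n → ℝ)) (b : ℝ) (a : Fin n → ℝ) : Prop := ∀ x ∈ K, ∃ z ∈ K, -x = b • z + a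

/-- FARV (from N1Q, LEN, ASY, SML, N1 and the K block of MAH, see `Helper37/EQ/EQM.lean`):
quantitative volume product -/
def S_FARV : Prop :=
  ∀ (n : ℕ) (b : ℝ), 0 ≤ b → b < n → ∃ c : ℝ, 0 < c ∧ ∀ (K : Set (Fin n → ℝ)) (a : Fin n → ℝ),
    Helper82.MAH.OB K → Asy K b a →
    ENNReal.ofReal ((1 + c) * (((n : ℝ) + 1) ^ (n + 1) / (n.factorial : ℝ) ^ 2)) ≤
      volume K * volume (Helper82.MAH.Polar K)

/-- FARM (hypothesis FARV; see `Helper37/MAH/Fin.lean`): all positions, all `p` -/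
def S_FARM : Prop :=
  ∀ (n : ℕ) (b : ℝ), 0 ≤ b → b < n → ∃ c : ℝ, 0 < c ∧ ∀ (K : Set (Fin n → ℝ)) (a : Fin n → ℝ)
    (p : ℝ), 0 < p → Convex ℝ K → IsCompact K → (interior K).Nonempty → Asy K b a →
    ENNReal.ofReal ((1 + c) * (((n : ℝ) + 1) ^ (n + 1) / (n.factorial : ℝ))) ≤ MpF p K

/-- STAB: bodies of asymmetry close to `n` are close to simplices (quantitative
`simplex_of_contact` of `Helper37/EQ/SMX.lean`: trace at least `n + 1 - κ`) -/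
def S_STAB : Prop :=
  ∀ (n : ℕ) (δ : ℝ), 0 < n → 0 < δ → ∃ κ : ℝ, 0 < κ ∧ κ < 1 ∧ ∀ K : Set (Fin n → ℝ),
    Convex ℝ K → IsCompact K → (interior K).Nonempty →
    (∀ (b : ℝ) (a : Fin n → ℝ), 0 ≤ b → Asy K b a → (n : ℝ) - κ ≤ b) →
    ∃ T₀ : Set (Fin n → ℝ), SimD T₀ ∧ K ⊆ T₀ ∧ volume T₀ ≤ ENNReal.ofReal (1 + δ) * volume K

/-- FIN (hypotheses GEN, FARM, STAB, LIMJ, VOLV) -/
def S_FIN : Prop :=
  ∀ n : ℕ, 1 ≤ n → ∃ p0 δ : ℝ, 1 ≤ p0 ∧ 0 < δ ∧ ∀ (p : ℝ) (K : Set (Fin n → ℝ)), p0 ≤ p →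
    Convex ℝ K → IsCompact K → (interior K).Nonempty →
    MpF p (Dl n) ≤ MpF p K ∧ (MpF p K = MpF p (Dl n) → SimD K) ∧
    ∃ T : Set (Fin n → ℝ), SimD T ∧ K ⊆ T ∧
      ENNReal.ofReal (1 + δ * min 1 ((volume T).toReal / (volume K).toReal - 1)) *
        MpF p (Dl n) ≤ MpF p K

end Helper63.LP

end
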